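import Mathlib
import Pool.Agent.E8helper35.RP.FinalL

/-!
# Rational points of odd rank bounds on the powers of the line `x + y = 1`

The number of rational points of height at most `B` on the `k`-th power of the line `x + y = 1`
whose `2 k` coordinates generate a group of rank at most `2 m + 1` is `B ^ (2 m)`, up to a power of
`log B`.
-/

set_option autoImplicit false

namespace Pool.Agent.Results.MP_c95b3b_ag.OddRanksH35

/-- The monomial `∏ t_i ^ a_i (1 - t_i) ^ a'_i`, for the exponents `a = (a_i, a'_i)`. -/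
def mon {k : ℕ} (t : Fin k → ℚ) (a : Fin k ⊕ Fin k → ℤ) : ℚ :=
  (∏ i, t i ^ a (Sum.inl i)) * ∏ i, (1 - t i) ^ a (Sum.inr i)

/-- The `k`-tuples of rational numbers different from `0` and `1`, of height at most `B`, for which
the `2 k` numbers `t_i`, `1 - t_i` satisfy at least `2 k - r` independent multiplicative relations,
that is, generate a group of rank at most `r`. -/
def Pts (k r B : ℕ) : Set (Fin k → ℚ) :=
  {t | (∀ i, t i ≠ 0 ∧ t i ≠ 1 ∧ (t i).num.natAbs ≤ B ∧ (t i).den ≤ B) ∧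
    ∃ Λ : Submodule ℤ (Fin k ⊕ Fin k → ℤ), 2 * k ≤ r + Module.finrank ℤ Λ ∧
      ∀ a ∈ Λ, mon t a = 1}

/-- The number of the points of rank at most `2 m + 1`, up to a power of the logarithm. -/
theorem result (k m : ℕ) (hm : 1 ≤ m) (hmk : m ≤ k) :
    (∃ c : ℝ, 0 < c ∧ ∀ B : ℕ, 1 ≤ B → (Pts k (2 * m + 1) B).Finite ∧
      c * (B : ℝ) ^ (2 * m) ≤ (Pts k (2 * m + 1) B).ncard) ∧
    (∃ (C : ℝ) (a : ℕ), ∀ B : ℕ, 1 ≤ B →
      ((Pts k (2 * m + 1) B).ncard : ℝ) ≤ C * (B : ℝ) ^ (2 * m) * Real.log (B + 1) ^ a) :=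
  Pool.Agent.E8helper35.RP.mainOdd k m hm hmk

end Pool.Agent.Results.MP_c95b3b_ag.OddRanksH35
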