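import Mathlib
import Pool.Agent.E8helper35.ZL.Main

/-!
# Zilber's conjecture and the powers of the line `x + y = 1`

Zilber's conjecture on intersections with tori, for all subvarieties of all tori over the complex
numbers, is equivalent to a statement on algebraic numbers for the powers of one line: every
component of the Zariski closure of the set of algebraic points of the `k`-th power of the line
`x + y = 1` whose `2 k` coordinates generate a group of rank less than `k` is atypical.
-/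

set_option autoImplicit false

namespace Pool.Agent.Results.MP_c95b3b_ag.PowersOfTheLineH35

/-- Zilber's conjecture, in the form of the frozen statement `S00439`. -/
def Zilber : Prop :=
  ∀ (n : ℕ) (P : Ideal (MvPolynomial (Fin n) ℂ)), P.IsPrime →
      (∏ i : Fin n, (MvPolynomial.X i : MvPolynomial (Fin n) ℂ)) ∉ P →
      (∀ f : MvPolynomial (Fin n) ℂ,
        (∀ x : Fin n → ℂ, (∀ i, x i ≠ 0) → (∀ g ∈ P, MvPolynomial.eval x g = 0) →
          (∃ Λ : Submodule ℤ (Fin n → ℤ),
            ringKrullDim (MvPolynomial (Fin n) ℂ ⧸ P)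
                + ((n - Module.finrank ℤ Λ : ℕ) : WithBot ℕ∞) + 1 ≤ (n : WithBot ℕ∞) ∧
            ∀ a ∈ Λ, ∏ i : Fin n, x i ^ a i = 1) →
          MvPolynomial.eval x f = 0) →
        ∀ x : Fin n → ℂ, (∀ i, x i ≠ 0) → (∀ g ∈ P, MvPolynomial.eval x g = 0) →
          MvPolynomial.eval x f = 0) →
      ∃ a : Fin n → ℤ, a ≠ 0 ∧
        ∀ x : Fin n → ℂ, (∀ i, x i ≠ 0) → (∀ g ∈ P, MvPolynomial.eval x g = 0) →
          ∏ i : Fin n, x i ^ a i = 1

/-- The monomial `∏ t_i ^ a_i (1 - t_i) ^ a'_i`, for the exponents `a = (a_i, a'_i)`. -/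
noncomputable def mon {k : ℕ} (t : Fin k → ℂ) (a : Fin k ⊕ Fin k → ℤ) : ℂ :=
  (∏ i, t i ^ a (Sum.inl i)) * ∏ i, (1 - t i) ^ a (Sum.inr i)

/-- The `k`-tuples of algebraic numbers different from `0` and `1` for which the `2 k` numbers
`t_i`, `1 - t_i` satisfy more than `k` independent multiplicative relations, that is, generate a
group of rank less than `k`. -/
def LowRank (k : ℕ) : Set (Fin k → ℂ) :=
  {t | (∀ i, IsAlgebraic ℚ (t i)) ∧ (∀ i, t i ≠ 0 ∧ t i ≠ 1) ∧
    ∃ Λ : Submodule ℤ (Fin k ⊕ Fin k → ℤ), k < Module.finrank ℤ Λ ∧ ∀ a ∈ Λ, mon t a = 1}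

/-- For every `k`, every irreducible component over `ℚ` of the Zariski closure of `LowRank k`, of
dimension `d` say, satisfies more than `k - d` independent multiplicative relations. -/
def LineCase : Prop :=
  ∀ (k : ℕ) (P : Ideal (MvPolynomial (Fin k) ℚ)),
    P ∈ (MvPolynomial.vanishingIdeal ℚ (LowRank k)).minimalPrimes →
    ∃ Λ : Submodule ℤ (Fin k ⊕ Fin k → ℤ),
      (k : WithBot ℕ∞) < ringKrullDim (MvPolynomial (Fin k) ℚ ⧸ P) +
        ((Module.finrank ℤ Λ : ℕ) : WithBot ℕ∞) ∧
      ∀ a ∈ Λ, ∀ t : Fin k → ℂ, (∀ i, t i ≠ 0 ∧ t i ≠ 1) →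
        (∀ f ∈ P, MvPolynomial.aeval t f = 0) → mon t a = 1

/-- Zilber's conjecture is equivalent to its case for the powers of the line `x + y = 1`. -/
theorem result : Zilber ↔ LineCase := Pool.Agent.E8helper35.ZL.zilber_iff

end Pool.Agent.Results.MP_c95b3b_ag.PowersOfTheLineH35
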