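import Mathlib
import Pool.Agent.E8helper35.RP.FinalL

/-!
# Rational points of small rank on the powers of the line `x + y = 1`

The rational points of height at most `B` on the `k`-th power of the line `x + y = 1` whose `2 k`
coordinates generate a group of rank at most `2 m`: their number has the order of magnitude
`B ^ (2 m)`, and all but `O (B ^ (2 m - 2) (log B) ^ a)` of them lie on finitely many explicit
subvarieties of dimension at most `m` on which `2 (k - m)` independent multiplicative relations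
hold; the exponent `2 m - 2` is sharp.
-/

set_option autoImplicit false

namespace Pool.Agent.Results.MP_c95b3b_ag.RationalPointsH35

/-- The monomial `∏ t_i ^ a_i (1 - t_i) ^ a'_i`, for the exponents `a = (a_i, a'_i)`. -/
def mon {k : ℕ} (t : Fin k → ℚ) (a : Fin k ⊕ Fin k → ℤ) : ℚ :=
  (∏ i, t i ^ a (Sum.inl i)) * ∏ i, (1 - t i) ^ a (Sum.inr i)

/-- The `k`-tuples of rational numbers different from `0` and `1`, of height at most `B`, for which
the `2 k` numbers `t_i`, `1 - t_i` satisfy at least `2 k - r` independent multiplicative relations,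
that is, generate a group of rank at most `r`. -/
def Pts (k r B : ℕ) : Set (Fin k → ℚ) :=
  {t | (∀ i, t i ≠ 0 ∧ t i ≠ 1 ∧ (t i).num.natAbs ≤ B ∧ (t i).den ≤ B) ∧
    ∃ Λ : Submodule ℤ (Fin k ⊕ Fin k → ℤ), 2 * k ≤ r + Module.finrank ℤ Λ ∧
      ∀ a ∈ Λ, mon t a = 1}

/-- The numbers `t`, `1 - t`, `1 / t`, `1 / (1 - t)`, `t / (t - 1)`, `(t - 1) / t`. -/
def six (t : ℚ) : Fin 6 → ℚ :=
  ![t, 1 - t, 1 / t, 1 / (1 - t), t / (t - 1), (t - 1) / t]

/-- For `σ j = (i_j, g_j)`, the tuples of numbers different from `0` and `1` with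
`t_j = g_j (t_(i_j))` for all `j`. -/
def SpV {k : ℕ} (σ : Fin k → Fin k × Fin 6) : Set (Fin k → ℚ) :=
  {t | (∀ i, t i ≠ 0 ∧ t i ≠ 1) ∧ ∀ j, t j = six (t (σ j).1) (σ j).2}

/-- The number of indices `i_j`: a bound for the dimension of `SpV σ`. -/
def par {k : ℕ} (σ : Fin k → Fin k × Fin 6) : ℕ :=
  (Finset.univ.image fun j => (σ j).1).card

/-- The exceptional points: the points of `Pts k (2 * m) B` which lie on no `SpV σ` with
`par σ ≤ m`. -/
def Exc (k m B : ℕ) : Set (Fin k → ℚ) :=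
  {t ∈ Pts k (2 * m) B | ∀ σ, par σ ≤ m → t ∉ SpV σ}

/-- The points of rank at most `2 m`: their number, and the number of the exceptional ones. -/
theorem result (k m : ℕ) (hm : 1 ≤ m) (hmk : m ≤ k) :
    (∀ σ : Fin k → Fin k × Fin 6, par σ ≤ m → ∃ Λ : Submodule ℤ (Fin k ⊕ Fin k → ℤ),
      2 * (k - m) ≤ Module.finrank ℤ Λ ∧ ∀ t ∈ SpV σ, ∀ a ∈ Λ, mon t a = 1) ∧
    (∃ c C : ℝ, 0 < c ∧ ∀ B : ℕ, 1 ≤ B → (Pts k (2 * m) B).Finite ∧
      c * (B : ℝ) ^ (2 * m) ≤ (Pts k (2 * m) B).ncard ∧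
      ((Pts k (2 * m) B).ncard : ℝ) ≤ C * (B : ℝ) ^ (2 * m)) ∧
    (∃ (C : ℝ) (a : ℕ), ∀ B : ℕ, 1 ≤ B →
      ((Exc k m B).ncard : ℝ) ≤ C * (B : ℝ) ^ (2 * m - 2) * Real.log (B + 1) ^ a) ∧
    (m < k → ∃ c : ℝ, 0 < c ∧ ∃ B₀ : ℕ, ∀ B : ℕ, B₀ ≤ B →
      c * (B : ℝ) ^ (2 * m - 2) ≤ (Exc k m B).ncard) :=
  Pool.Agent.E8helper35.RP.mainL k m hm hmk

end Pool.Agent.Results.MP_c95b3b_ag.RationalPointsH35
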